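import Mathlib
import Pool.Agent.Y617.CF.Src

set_option autoImplicit false

namespace Pool.Agent.Y617.CF

open Pool.Agent.H502.PcSrc Pool.Agent.H109R3.CF

theorem two_notMem {T : List Tr} {o : Option ℕ} {w : List (Fin 3)} (h : W T o w) : (2 : Fin 3) ∉ w := by
  induction h with
  | nil => simp
  | step p s s0 r r0 o h v t w _ ih =>
    have hr : ∀ k : ℕ, (2 : Fin 3) ∉ List.replicate k (0 : Fin 3) := by
      intro k hk
      have := List.eq_of_mem_replicate hk
      exact absurd this (by decide)
    have h1 : (2 : Fin 3) ≠ 1 := by decide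
    simp only [List.mem_append, List.mem_cons, not_or]
    exact ⟨hr _, h1, hr _, hr _, h1, hr _, ih⟩

/-- the language of the words of halting runs is context-free -/
theorem isContextFree_W (T : List Tr) (p0 : ℕ) :
    Language.IsContextFree ({w | W T (some p0) w} : Language (Fin 3)) := by
  refine ⟨mk (nN p0) (gram T p0 0).rules, ?_⟩
  ext w
  change w ∈ Lg (0 : ℕ) (gram T p0 0).rules (nN p0) ↔ W T (some p0) w
  constructor
  · intro hw
    have hr : toR (0, .inr 1 :: (List.replicate 0 (.inr 0) ++ [.inl (nN p0)])) ∈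
        (gram T p0 0).rules := by
      rw [mem_rules]
      exact ⟨_, by simp [gram], rfl⟩
    have h1 : (1 : Fin 3) :: (List.replicate 0 0 ++ w) ∈ Lg (0 : ℕ) (gram T p0 0).rules (0 : ℕ) := by
      apply mem_Lg _ _ hr
      simp only [toR, List.map_cons, List.map_append, List.map_replicate, Sum.elim_inr,
        Sum.elim_inl, List.map_nil]
      rw [mem_Sem_cons_terminal]
      refine ⟨_, ?_, rfl⟩
      rw [mem_Sem_replicate]
      refine ⟨w, ?_, rfl⟩
      rw [Sem_single]
      exact hw
    obtain ⟨u, hu, he⟩ := sound (T := T) (p0 := p0) (x := 0) h1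
    simp only [List.replicate_zero, List.nil_append, List.cons.injEq, true_and] at he
    rw [he]
    exact hu
  · intro h
    have := complete_aux (p0 := p0) (x := 0) h
    simp only [Option.toList_some, List.map_cons, List.map_nil] at this
    rwa [Sem_single] at this

theorem meets_iff (T : List Tr) (p0 x : ℕ) :
    (∃ u ∈ ({w | W T (some p0) w} : Language (Fin 3)),
      1 :: (List.replicate x 0 ++ u) ∈ lang (subshift tau)) ↔ HaltsT T (some p0) x := by
  rw [← reduction]
  constructor
  · rintro ⟨u, hu, h⟩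
    exact ⟨_, complete hu, h⟩
  · rintro ⟨w, hw, h⟩
    obtain ⟨u, hu, rfl⟩ := sound hw
    exact ⟨u, hu, h⟩

theorem reducible (T : List Tr) (p0 : ℕ) (N : ℕ → ℕ) (hN : Computable N)
    (h : ∀ n, HaltsT T (some p0) (N n) ↔ (u n).Dom) {S : ℕ → Prop} (hS : REPred S) :
    ManyOneReducible S (HaltsT T (some p0)) := by
  obtain ⟨c, hc, hcS⟩ := Pool.Agent.Y617.MO.exists_codes hS
  refine ⟨fun n => N (Encodable.encode (c n)), hN.comp (Computable.encode.comp hc), fun n => ?_⟩
  change _ ↔ HaltsT T (some p0) (N (Encodable.encode (c n)))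
  rw [h, ← hcS]
  simp [u, Denumerable.ofNat_encode]

theorem main :
    (∃ L : Language (Fin 3), L.IsContextFree ∧ (∀ w ∈ L, (2 : Fin 3) ∉ w) ∧
      ∀ S : ℕ → Prop, REPred S → ManyOneReducible S
        (fun x : ℕ => ∃ w ∈ L, 1 :: (List.replicate x 0 ++ w) ∈ lang (subshift tau))) ∧
    (∀ S : ℕ → Prop, REPred S → ManyOneReducible S
      (fun G : Gram 3 => ∃ w ∈ G.toCFG.language, w ∈ lang (subshift tau))) := by
  obtain ⟨T, p0, N, hN, h⟩ := exists_tr_iff
  refine ⟨⟨{w | W T (some p0) w}, isContextFree_W T p0, fun w hw => two_notMem hw,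
    fun S hS => ?_⟩, fun S hS => ?_⟩
  · obtain ⟨f, hf, hf2⟩ := reducible T p0 N hN h hS
    exact ⟨f, hf, fun n => (hf2 n).trans (meets_iff T p0 (f n)).symm⟩
  · refine (reducible T p0 N hN h hS).trans ⟨fun n => gram T p0 n,
      gram_computable T p0 id Computable.id, fun n => (reduction T p0 n).symm⟩

end Pool.Agent.Y617.CF
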